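import Mathlib

/-!
# The choice of the scales
-/

set_option autoImplicit false

namespace Pool.Agent.L5helper45.HW

namespace Par

lemma root14 (k : ℕ) : ∃ x : ℕ, x ^ 14 ≤ k ∧ k < (x + 1) ^ 14 := by
  induction k with
  | zero => exact ⟨0, by norm_num, by norm_num⟩
  | succ k ih =>
    obtain ⟨x, h1, h2⟩ := ih
    by_cases h : k + 1 < (x + 1) ^ 14
    · exact ⟨x, h1.trans (Nat.le_succ k), h⟩
    · refine ⟨x + 1, not_lt.1 h, ?_⟩
      have h3 : (x + 1) ^ 14 < (x + 1 + 1) ^ 14 := Nat.pow_lt_pow_left (by omega) (by norm_num)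
      exact lt_of_le_of_lt (Nat.succ_le_of_lt h2) h3

lemma exp_half : Real.exp (1 / 2) ≤ 1.65 := by
  have h1 : Real.exp (1 / 2) ^ 2 = Real.exp 1 := by
    rw [← Real.exp_nat_mul]; norm_num
  have h2 := Real.exp_one_lt_d9
  by_contra h
  push Not at h
  have h3 : (1.65 : ℝ) ^ 2 ≤ Real.exp (1 / 2) ^ 2 := pow_le_pow_left₀ (by norm_num) h.le 2
  rw [h1] at h3
  norm_num at h3
  linarith

section

variable {N : ℕ}

lemma b_ge (hN : 0 < N) : (32 : ℝ) ≤ (1 + 31 / (N : ℝ)) ^ N := by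
  have hN' : (0 : ℝ) < N := by exact_mod_cast hN
  have h := one_add_mul_le_pow (a := 31 / (N : ℝ)) (by
    have : 0 ≤ 31 / (N : ℝ) := by positivity
    linarith) N
  have h2 : (1 : ℝ) + N * (31 / N) = 32 := by field_simp; norm_num
  linarith

lemma b_pow_le (hN : 0 < N) {x : ℕ} (hx : 1 ≤ x) {q : ℕ} (hq : q = ⌊(N : ℝ) * Real.log x / 31⌋₊) :
    (1 + 31 / (N : ℝ)) ^ q ≤ x := by
  have hN' : (0 : ℝ) < N := by exact_mod_cast hN
  have hx' : (0 : ℝ) < x := by exact_mod_cast hx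
  have hlog : 0 ≤ Real.log x := Real.log_nonneg (by exact_mod_cast hx)
  have h1 : (q : ℝ) ≤ (N : ℝ) * Real.log x / 31 := by
    rw [hq]; exact Nat.floor_le (by positivity)
  have h2 : 1 + 31 / (N : ℝ) ≤ Real.exp (31 / N) := by
    have := Real.add_one_le_exp (31 / (N : ℝ))
    linarith
  calc (1 + 31 / (N : ℝ)) ^ q ≤ (Real.exp (31 / N)) ^ q := pow_le_pow_left₀ (by positivity) h2 q
    _ = Real.exp (q * (31 / N)) := by rw [Real.exp_nat_mul]
    _ ≤ Real.exp (Real.log x) := by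
        apply Real.exp_le_exp.2
        have h3 : (q : ℝ) * (31 / N) ≤ ((N : ℝ) * Real.log x / 31) * (31 / N) :=
          mul_le_mul_of_nonneg_right h1 (by positivity)
        refine h3.trans (le_of_eq ?_)
        field_simp
    _ = x := Real.exp_log hx'

lemma two_pow_ge {A : ℕ} (hN : 700 * (A + 1) ≤ N) {x : ℕ} (hx : 1 ≤ x) {q : ℕ}
    (hq : q = ⌊(N : ℝ) * Real.log x / 31⌋₊) : (x : ℝ) ^ (14 * A) ≤ 2 * 2 ^ q := by
  have hx' : (0 : ℝ) < x := by exact_mod_cast hx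
  have hlog : 0 ≤ Real.log x := Real.log_nonneg (by exact_mod_cast hx)
  have h1 : (N : ℝ) * Real.log x / 31 < q + 1 := by
    rw [hq]; exact Nat.lt_floor_add_one _
  have hl2 := Real.log_two_gt_d9
  have hNA : (700 : ℝ) * (A + 1) ≤ N := by exact_mod_cast hN
  have h2 : (2 : ℝ) * 2 ^ q = Real.exp ((q + 1) * Real.log 2) := by
    have h3 : ((q : ℝ) + 1) = ((q + 1 : ℕ) : ℝ) := by push_cast; ring
    rw [h3, Real.exp_nat_mul, Real.exp_log (by norm_num), pow_succ]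
    ring
  have h3 : (x : ℝ) ^ (14 * A) = Real.exp ((14 * A) * Real.log x) := by
    have h4 : ((14 : ℝ) * A) = ((14 * A : ℕ) : ℝ) := by push_cast; ring
    rw [h4, Real.exp_nat_mul, Real.exp_log hx']
  rw [h2, h3]
  apply Real.exp_le_exp.2
  have h4 : ((N : ℝ) * Real.log x / 31) * Real.log 2 ≤ (q + 1) * Real.log 2 :=
    mul_le_mul_of_nonneg_right h1.le (by linarith)
  refine le_trans ?_ h4
  have h5 : (14 : ℝ) * A ≤ N * Real.log 2 / 31 := by
    rw [le_div_iff₀ (by norm_num)]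
    have h6 : (N : ℝ) * 0.69 ≤ N * Real.log 2 := by
      apply mul_le_mul_of_nonneg_left (by linarith) (Nat.cast_nonneg _)
    have h7 : (0 : ℝ) ≤ A := Nat.cast_nonneg _
    nlinarith
  calc (14 : ℝ) * A * Real.log x ≤ (N * Real.log 2 / 31) * Real.log x :=
        mul_le_mul_of_nonneg_right h5 hlog
    _ = _ := by ring

/-- the positions -/
lemma pos_le (hN : 0 < N) {x i q : ℕ} (hx : 4 * N ≤ x) (hb : (1 + 31 / (N : ℝ)) ^ q ≤ x)
    (hi : i ≤ q) {J : ℝ} (hJ : J = x * (1 + 31 / (N : ℝ)) ^ i) {τ : ℝ} (hτ : τ * (4 * N) ≤ x) :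
    (⌈J⌉₊ : ℝ) + τ ≤ J * (1 + 1 / (2 * N)) ∧ J ≤ (x : ℝ) ^ 2 ∧ (x : ℝ) ≤ J := by
  have hN' : (0 : ℝ) < N := by exact_mod_cast hN
  have hx' : (4 : ℝ) * N ≤ x := by exact_mod_cast hx
  have hx0 : (0 : ℝ) < x := by linarith
  have hb1 : (1 : ℝ) ≤ 1 + 31 / (N : ℝ) := by
    have : 0 ≤ 31 / (N : ℝ) := by positivity
    linarith
  have h1 : (1 : ℝ) ≤ (1 + 31 / (N : ℝ)) ^ i := one_le_pow₀ hb1
  have h2 : (1 + 31 / (N : ℝ)) ^ i ≤ x := (pow_le_pow_right₀ hb1 hi).trans hb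
  have hxJ : (x : ℝ) ≤ J := by rw [hJ]; exact le_mul_of_one_le_right hx0.le h1
  refine ⟨?_, ?_, hxJ⟩
  · have h3 : (⌈J⌉₊ : ℝ) < J + 1 := Nat.ceil_lt_add_one (hx0.le.trans hxJ)
    have h4 : τ ≤ x / (4 * N) := by rw [le_div_iff₀ (by positivity)]; exact hτ
    have h5 : 1 ≤ (x : ℝ) / (4 * N) := by rw [le_div_iff₀ (by positivity)]; linarith
    have h6 : (x : ℝ) / (4 * N) + x / (4 * N) ≤ J * (1 / (2 * N)) := by
      have h7 : (x : ℝ) / (4 * N) + x / (4 * N) = x * (1 / (2 * N)) := by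
        field_simp; ring
      rw [h7]
      exact mul_le_mul_of_nonneg_right hxJ (by positivity)
    rw [mul_add, mul_one]
    linarith
  · rw [hJ, pow_two]
    exact mul_le_mul_of_nonneg_left h2 hx0.le

end

end Par

open Par

/-- LEMMA F -/
theorem params (I J : ℕ) (c cb : ℝ) (hc : 0 < c) (hcb : 0 < cb) (s : ℕ) (hs : 1 ≤ s) (A : ℕ) (hA : 700 * (A + 1) ≤ I + 1) :
    ∃ (K B : ℕ) (C : ℝ), 0 < C ∧ ∀ k : ℕ, K ≤ k → ∃ (q n : ℕ) (a : ℕ → ℕ) (lo hi : ℕ → ℝ),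
      (∀ i, i + 1 < q → a i + n * s ≤ a (i + 1)) ∧ (∀ i < q, 3 * (a i + n * s) ≤ k) ∧
      (∀ i < q, ∀ t < n, J ≤ a i + t * s ∧ 3 * ((a i + t * s) ^ 6 + (a i + t * s) + s) ≤ k ∧
        lo i ≤ 2 / 3 * c / ((a i + t * s : ℕ) : ℝ) ^ (I + 1) ∧ 4 / 3 * c / ((a i + t * s : ℕ) : ℝ) ^ (I + 1) ≤ hi i) ∧
      (∀ i < q, 1 / (k : ℝ) ^ B + ∑ m ∈ Finset.Ico (i + 1) q, hi m < lo i) ∧
      1 / (2 : ℝ) ^ q + 4 * q * Real.exp (-(cb * n)) ≤ C / (k : ℝ) ^ A := by
  obtain ⟨N, hNI⟩ : ∃ N, N = I + 1 := ⟨_, rfl⟩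
  rw [← hNI] at hA ⊢
  have hN : 0 < N := by omega
  have hN700 : 700 ≤ N := by omega
  have hN' : (0 : ℝ) < N := by exact_mod_cast hN
  have hN7 : (700 : ℝ) ≤ N := by exact_mod_cast hN700
  have hs' : (1 : ℝ) ≤ s := by exact_mod_cast hs
  obtain ⟨b, hb⟩ : ∃ b : ℝ, b = 1 + 31 / (N : ℝ) := ⟨_, rfl⟩
  have hb1 : 1 ≤ b := by
    have : 0 ≤ 31 / (N : ℝ) := by positivity
    rw [hb]; linarith
  have hb0 : 0 < b := by linarith
  obtain ⟨δ, hδ⟩ : ∃ δ : ℝ, δ = cb / (4 * N * s) := ⟨_, rfl⟩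
  have hδ0 : 0 < δ := by rw [hδ]; positivity
  obtain ⟨M, hM⟩ : ∃ M : ℕ, M = 14 * A + 1 := ⟨_, rfl⟩
  obtain ⟨E, hE⟩ : ∃ E : ℝ, E = 4 * N * (Real.exp cb * (M.factorial / δ ^ M)) := ⟨_, rfl⟩
  have hE0 : 0 < E := by
    have : (0 : ℝ) < M.factorial := by exact_mod_cast M.factorial_pos
    rw [hE]; positivity
  obtain ⟨X0, hX0⟩ : ∃ X0 : ℕ, X0 = J + 4 * N + s + ⌈1 / (0.36 * c)⌉₊ + 1 := ⟨_, rfl⟩
  refine ⟨X0 ^ 14, N, 2 ^ (14 * A) * (2 + E), by positivity, fun k hk => ?_⟩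
  obtain ⟨x, hx1, hx2⟩ := root14 k
  have hxX : X0 ≤ x := by
    have h1 : X0 ^ 14 < (x + 1) ^ 14 := lt_of_le_of_lt hk hx2
    exact Nat.lt_succ_iff.1 (lt_of_pow_lt_pow_left₀ 14 (Nat.zero_le _) h1)
  have hxJ : J ≤ x := by omega
  have hxN : 4 * N ≤ x := by omega
  have hxs : s ≤ x := by omega
  have hx15 : 15 ≤ x := by omega
  have hx1' : 1 ≤ x := by omega
  have hxR : (15 : ℝ) ≤ x := by exact_mod_cast hx15
  have hx0 : (0 : ℝ) < x := by linarith
  have hxc : 1 < 0.36 * c * x := by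
    have h1 : 1 / (0.36 * c) ≤ ⌈1 / (0.36 * c)⌉₊ := Nat.le_ceil _
    have h2 : ((⌈1 / (0.36 * c)⌉₊ : ℕ) : ℝ) < x := by
      have : ⌈1 / (0.36 * c)⌉₊ < x := by omega
      exact_mod_cast this
    have h3 := h1.trans_lt h2
    rw [div_lt_iff₀ (by positivity)] at h3
    linarith
  have hxk : (x : ℝ) ^ 14 ≤ k := by exact_mod_cast hx1
  have hk0 : (0 : ℝ) < k := lt_of_lt_of_le (by positivity) hxk
  obtain ⟨q, hq⟩ : ∃ q : ℕ, q = ⌊(N : ℝ) * Real.log x / 31⌋₊ := ⟨_, rfl⟩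
  obtain ⟨n, hn⟩ : ∃ n : ℕ, n = x / (4 * N * s) := ⟨_, rfl⟩
  obtain ⟨Jr, hJr⟩ : ∃ Jr : ℕ → ℝ, Jr = fun i => x * b ^ i := ⟨_, rfl⟩
  have hbq : b ^ q ≤ x := by rw [hb]; exact b_pow_le hN hx1' hq
  have hns : (n : ℝ) * s * (4 * N) ≤ x := by
    have h1 : n * (4 * N * s) ≤ x := by rw [hn]; exact Nat.div_mul_le_self _ _
    have h2 : (n : ℝ) * (4 * N * s) ≤ x := by exact_mod_cast h1
    linarith
  have hpos : ∀ i ≤ q, ∀ τ : ℝ, τ * (4 * N) ≤ x →
      (⌈Jr i⌉₊ : ℝ) + τ ≤ Jr i * (1 + 1 / (2 * N)) ∧ Jr i ≤ (x : ℝ) ^ 2 ∧ (x : ℝ) ≤ Jr i := by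
    intro i hi τ hτ
    exact pos_le hN hxN (by rw [← hb]; exact hbq) hi (by rw [hJr, hb]) hτ
  have hJr0 : ∀ i, 0 < Jr i := by intro i; rw [hJr]; positivity
  have htau : ∀ t < n, ((t * s : ℕ) : ℝ) * (4 * N) ≤ x := by
    intro t ht
    refine le_trans ?_ hns
    push_cast
    have : (t : ℝ) ≤ n := by exact_mod_cast ht.le
    gcongr
  -- positions are at most `2 x ^ 2`
  have hup : ∀ i < q, ∀ τ : ℕ, (τ : ℝ) * (4 * N) ≤ x → ⌈Jr i⌉₊ + τ ≤ 2 * x ^ 2 := by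
    intro i hi τ hτ
    obtain ⟨h1, h2, h3⟩ := hpos i hi.le τ hτ
    have h4 : Jr i * (1 + 1 / (2 * N)) ≤ (x : ℝ) ^ 2 * 2 := by
      have h5 : 1 / (2 * (N : ℝ)) ≤ 1 := by
        rw [div_le_one (by positivity)]; linarith
      have := hJr0 i
      gcongr
      linarith
    have h6 : ((⌈Jr i⌉₊ + τ : ℕ) : ℝ) ≤ ((2 * x ^ 2 : ℕ) : ℝ) := by
      push_cast
      linarith
    exact_mod_cast h6
  refine ⟨q, n, fun i => ⌈Jr i⌉₊, fun i => 2 / 3 * c / (1.65 * Jr i ^ N), fun i => 4 / 3 * c / Jr i ^ N,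
    ?_, ?_, ?_, ?_, ?_⟩
  · -- the gaps
    intro i _
    show ⌈Jr i⌉₊ + n * s ≤ ⌈Jr (i + 1)⌉₊
    have h1 : (⌈Jr i⌉₊ : ℝ) < Jr i + 1 := Nat.ceil_lt_add_one (hJr0 i).le
    have h2 : Jr (i + 1) ≤ ⌈Jr (i + 1)⌉₊ := Nat.le_ceil _
    have h3 : Jr (i + 1) = Jr i + Jr i * (31 / N) := by
      rw [hJr, hb]; simp only [pow_succ]; ring
    have h4 : (x : ℝ) ≤ Jr i := by
      rw [hJr]
      exact le_mul_of_one_le_right hx0.le (one_le_pow₀ hb1)
    have h5 : (n : ℝ) * s ≤ x / (4 * N) := by rw [le_div_iff₀ (by positivity)]; exact hns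
    have h6 : 1 ≤ (x : ℝ) / (4 * N) := by
      rw [le_div_iff₀ (by positivity)]
      have : ((4 * N : ℕ) : ℝ) ≤ x := by exact_mod_cast hxN
      push_cast at this
      linarith
    have h7 : (x : ℝ) / (4 * N) + x / (4 * N) ≤ Jr i * (31 / N) := by
      have h8 : (x : ℝ) / (4 * N) + x / (4 * N) = x * (1 / (2 * N)) := by
        field_simp; ring
      rw [h8]
      have h9 : 1 / (2 * (N : ℝ)) ≤ 31 / N := by
        rw [div_le_div_iff₀ (by positivity) hN']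
        nlinarith
      have := hJr0 i
      gcongr
    have h8 : ((⌈Jr i⌉₊ + n * s : ℕ) : ℝ) ≤ ⌈Jr (i + 1)⌉₊ := by
      push_cast
      linarith
    exact_mod_cast h8
  · intro i hi
    show 3 * (⌈Jr i⌉₊ + n * s) ≤ k
    have h1 := hup i hi (n * s) (by push_cast; exact hns)
    have h2 : 3 * (2 * x ^ 2) ≤ x ^ 14 := by
      have h3 : 3 * 2 ≤ x ^ 12 := by
        calc 3 * 2 ≤ 15 ^ 12 := by norm_num
          _ ≤ x ^ 12 := Nat.pow_le_pow_left hx15 12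
      calc 3 * (2 * x ^ 2) = (3 * 2) * x ^ 2 := by ring
        _ ≤ x ^ 12 * x ^ 2 := Nat.mul_le_mul_right _ h3
        _ = x ^ 14 := by ring
    exact (Nat.mul_le_mul_left 3 h1).trans (h2.trans hx1)
  · intro i hi t ht
    show J ≤ ⌈Jr i⌉₊ + t * s ∧ 3 * ((⌈Jr i⌉₊ + t * s) ^ 6 + (⌈Jr i⌉₊ + t * s) + s) ≤ k ∧
      2 / 3 * c / (1.65 * Jr i ^ N) ≤ 2 / 3 * c / ((⌈Jr i⌉₊ + t * s : ℕ) : ℝ) ^ N ∧
      4 / 3 * c / ((⌈Jr i⌉₊ + t * s : ℕ) : ℝ) ^ N ≤ 4 / 3 * c / Jr i ^ N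
    obtain ⟨h1, h2, h3⟩ := hpos i hi.le _ (htau t ht)
    have h0 := hJr0 i
    obtain ⟨j, hj⟩ : ∃ j, j = ⌈Jr i⌉₊ + t * s := ⟨_, rfl⟩
    have hjR : (j : ℝ) = (⌈Jr i⌉₊ : ℝ) + ((t * s : ℕ) : ℝ) := by rw [hj]; push_cast; ring
    rw [← hjR] at h1
    have h4 : Jr i ≤ j := by
      rw [hjR]
      have h5 := Nat.le_ceil (Jr i)
      have h6 : (0 : ℝ) ≤ ((t * s : ℕ) : ℝ) := Nat.cast_nonneg _
      linarith
    have hj2 : j ≤ 2 * x ^ 2 := by rw [hj]; exact hup i hi _ (htau t ht)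
    rw [← hj]
    have hj0 : (0 : ℝ) < j := h0.trans_le h4
    refine ⟨?_, ?_, ?_, ?_⟩
    · have h5 : (x : ℝ) ≤ j := h3.trans h4
      have h6 : x ≤ j := by exact_mod_cast h5
      omega
    · have h5 : j ^ 6 ≤ 64 * x ^ 12 := by
        calc j ^ 6 ≤ (2 * x ^ 2) ^ 6 := Nat.pow_le_pow_left hj2 6
          _ = 64 * x ^ 12 := by ring
      have h6 : x ^ 2 ≤ x ^ 12 := Nat.pow_le_pow_right hx1' (by norm_num)
      have h7 : x ≤ x ^ 12 := by
        calc x = x ^ 1 := (pow_one x).symm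
          _ ≤ x ^ 12 := Nat.pow_le_pow_right hx1' (by norm_num)
      have h8 : 3 * (67 * x ^ 12) ≤ x ^ 14 := by
        have h9 : 3 * 67 ≤ x ^ 2 := by
          calc 3 * 67 ≤ 15 ^ 2 := by norm_num
            _ ≤ x ^ 2 := Nat.pow_le_pow_left hx15 2
        calc 3 * (67 * x ^ 12) = (3 * 67) * x ^ 12 := by ring
          _ ≤ x ^ 2 * x ^ 12 := Nat.mul_le_mul_right _ h9
          _ = x ^ 14 := by ring
      have h9 : j ^ 6 + j + s ≤ 67 * x ^ 12 := by omega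
      exact (Nat.mul_le_mul_left 3 h9).trans (h8.trans hx1)
    · apply div_le_div_of_nonneg_left (by positivity) (by positivity)
      calc (j : ℝ) ^ N ≤ (Jr i * (1 + 1 / (2 * N))) ^ N := pow_le_pow_left₀ hj0.le h1 N
        _ = Jr i ^ N * (1 + 1 / (2 * N)) ^ N := mul_pow _ _ _
        _ ≤ Jr i ^ N * Real.exp (1 / 2) := by
            apply mul_le_mul_of_nonneg_left _ (by positivity)
            have h5 : (1 + 1 / (2 * (N : ℝ))) ^ N ≤ (Real.exp (1 / (2 * N))) ^ N := by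
              apply pow_le_pow_left₀ (by positivity)
              have := Real.add_one_le_exp (1 / (2 * (N : ℝ)))
              linarith
            refine h5.trans (le_of_eq ?_)
            rw [← Real.exp_nat_mul]
            congr 1
            field_simp
        _ ≤ Jr i ^ N * 1.65 := mul_le_mul_of_nonneg_left exp_half (by positivity)
        _ = _ := mul_comm _ _
    · apply div_le_div_of_nonneg_left (by positivity) (by positivity)
      exact pow_le_pow_left₀ h0.le h4 N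
  · -- separation
    intro i hi
    show 1 / (k : ℝ) ^ N + ∑ m ∈ Finset.Ico (i + 1) q, 4 / 3 * c / Jr m ^ N <
      2 / 3 * c / (1.65 * Jr i ^ N)
    obtain ⟨r, hr⟩ : ∃ r : ℝ, r = (b ^ N)⁻¹ := ⟨_, rfl⟩
    have hbN : 32 ≤ b ^ N := by rw [hb]; exact b_ge hN
    have hr0 : 0 < r := by rw [hr]; positivity
    have hr32 : r ≤ 1 / 32 := by
      rw [hr, ← one_div]
      exact one_div_le_one_div_of_le (by norm_num) hbN
    have e1 : ∀ m, 4 / 3 * c / Jr m ^ N = 4 / 3 * c / (x : ℝ) ^ N * r ^ m := by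
      intro m
      rw [hJr, hr]
      simp only
      rw [mul_pow, ← pow_mul, mul_comm m N, pow_mul, inv_pow]
      field_simp
    have hy0 : 0 < 4 / 3 * c / Jr i ^ N := by have := hJr0 i; positivity
    have e2 : ∑ m ∈ Finset.Ico (i + 1) q, 4 / 3 * c / Jr m ^ N ≤ (4 / 3 * c / Jr i ^ N) / 31 := by
      have h1 := geom_sum_Ico_le_of_lt_one (x := r) hr0.le (by linarith) (m := i + 1) (n := q)
      have h2 : r ^ (i + 1) / (1 - r) ≤ r ^ i / 31 := by
        rw [div_le_div_iff₀ (by linarith) (by norm_num), pow_succ]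
        have h2 : 0 < r ^ i := by positivity
        nlinarith
      rw [Finset.sum_congr rfl fun m _ => e1 m, ← Finset.mul_sum, e1 i]
      refine (mul_le_mul_of_nonneg_left (h1.trans h2) (by positivity)).trans (le_of_eq ?_)
      ring
    have e3 : 1 / (k : ℝ) ^ N < 0.27 * (4 / 3 * c / Jr i ^ N) := by
      obtain ⟨-, h2, h3⟩ := hpos i hi.le 0 (by rw [zero_mul]; exact hx0.le)
      have h4 : Jr i ^ N ≤ ((x : ℝ) ^ 2) ^ N := pow_le_pow_left₀ (hJr0 i).le h2 N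
      have h5 : ((x : ℝ) ^ 14) ^ N ≤ (k : ℝ) ^ N := pow_le_pow_left₀ (by positivity) hxk N
      have h6 : 1 / (k : ℝ) ^ N ≤ 1 / ((x : ℝ) ^ 14) ^ N :=
        one_div_le_one_div_of_le (by positivity) h5
      have h7 : 4 / 3 * c / ((x : ℝ) ^ 2) ^ N ≤ 4 / 3 * c / Jr i ^ N :=
        div_le_div_of_nonneg_left (by positivity) (by have := hJr0 i; positivity) h4
      have h8 : 1 / ((x : ℝ) ^ 14) ^ N < 0.27 * (4 / 3 * c / ((x : ℝ) ^ 2) ^ N) := by
        have h9 : ((x : ℝ) ^ 14) ^ N = ((x : ℝ) ^ 12) ^ N * ((x : ℝ) ^ 2) ^ N := by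
          rw [← mul_pow]; congr 1; ring
        have h10 : (x : ℝ) ≤ ((x : ℝ) ^ 12) ^ N := by
          rw [← pow_mul]
          exact le_self_pow₀ (by linarith) (by omega)
        rw [h9, div_lt_iff₀ (by positivity)]
        have h11 : 0.27 * (4 / 3 * c / ((x : ℝ) ^ 2) ^ N) * (((x : ℝ) ^ 12) ^ N * ((x : ℝ) ^ 2) ^ N) =
            0.36 * c * ((x : ℝ) ^ 12) ^ N := by
          field_simp
          ring
        rw [h11]
        calc 1 < 0.36 * c * x := hxc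
          _ ≤ _ := by gcongr
      calc 1 / (k : ℝ) ^ N ≤ _ := h6
        _ < _ := h8
        _ ≤ _ := by gcongr
    have e4 : 2 / 3 * c / (1.65 * Jr i ^ N) = (4 / 3 * c / Jr i ^ N) / 3.3 := by
      have := hJr0 i
      field_simp
      ring
    rw [e4]
    have e5 : (4 / 3 * c / Jr i ^ N) / 31 + 0.27 * (4 / 3 * c / Jr i ^ N) <
        (4 / 3 * c / Jr i ^ N) / 3.3 := by
      obtain ⟨y, hy⟩ : ∃ y, y = 4 / 3 * c / Jr i ^ N := ⟨_, rfl⟩
      rw [← hy] at hy0 ⊢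
      have h1 : y / 31 + 0.27 * y = (1 / 31 + 0.27) * y := by ring
      have h2 : y / 3.3 = (1 / 3.3) * y := by ring
      rw [h1, h2]
      apply mul_lt_mul_of_pos_right _ hy0
      norm_num
    linarith
  · -- the last inequality
    have h1 := two_pow_ge hA hx1' hq
    have hkA : (k : ℝ) ^ A ≤ 2 ^ (14 * A) * (x : ℝ) ^ (14 * A) := by
      have h2 : (k : ℝ) ≤ (2 * x) ^ 14 := by
        have h3 : (k : ℝ) ≤ ((x : ℝ) + 1) ^ 14 := by exact_mod_cast hx2.le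
        refine h3.trans (pow_le_pow_left₀ (by positivity) (by linarith) 14)
      calc (k : ℝ) ^ A ≤ ((2 * (x : ℝ)) ^ 14) ^ A := pow_le_pow_left₀ hk0.le h2 A
        _ = (2 * (x : ℝ)) ^ (14 * A) := (pow_mul _ _ _).symm
        _ = _ := mul_pow _ _ _
    have hxA : 0 < (x : ℝ) ^ (14 * A) := by positivity
    -- both terms are `≤ const / x ^ (14 A)`
    have e1 : 1 / (2 : ℝ) ^ q ≤ 2 / (x : ℝ) ^ (14 * A) := by
      rw [div_le_div_iff₀ (by positivity) hxA]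
      linarith
    have e2 : 4 * q * Real.exp (-(cb * n)) ≤ E / (x : ℝ) ^ (14 * A) := by
      have hqx : (q : ℝ) ≤ N * x := by
        have h2 : (q : ℝ) ≤ (N : ℝ) * Real.log x / 31 := by
          rw [hq]
          apply Nat.floor_le
          have : 0 ≤ Real.log x := Real.log_nonneg (by linarith)
          positivity
        have h3 : Real.log x ≤ x := (Real.log_le_sub_one_of_pos hx0).trans (by linarith)
        have h4 : (N : ℝ) * Real.log x ≤ N * x := by gcongr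
        have h5 : 0 ≤ (N : ℝ) * x := by positivity
        linarith
      have hnx : δ * x - cb ≤ cb * n := by
        have h2 : x < (n + 1) * (4 * N * s) := by
          rw [hn]
          have h3 := Nat.div_add_mod x (4 * N * s)
          have h4 := Nat.mod_lt x (show 0 < 4 * N * s by positivity)
          calc x = 4 * N * s * (x / (4 * N * s)) + x % (4 * N * s) := h3.symm
            _ < 4 * N * s * (x / (4 * N * s)) + 4 * N * s := by omega
            _ = _ := by ring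
        have h3 : (x : ℝ) < (n + 1) * (4 * N * s) := by exact_mod_cast h2
        have h4 : δ * x ≤ cb * (n + 1) := by
          rw [hδ, div_mul_eq_mul_div, div_le_iff₀ (by positivity)]
          calc cb * x ≤ cb * ((n + 1) * (4 * N * s)) := by gcongr
            _ = _ := by ring
        linarith
      have he : Real.exp (-(cb * n)) ≤ Real.exp cb * (M.factorial / (δ * x) ^ M) := by
        have h2 : Real.exp (-(cb * n)) ≤ Real.exp (cb - δ * x) := Real.exp_le_exp.2 (by linarith)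
        rw [Real.exp_sub] at h2
        have h3 := Real.pow_div_factorial_le_exp (δ * x) (by positivity) M
        have hf : (0 : ℝ) < M.factorial := by exact_mod_cast M.factorial_pos
        refine h2.trans ?_
        rw [div_eq_mul_inv]
        apply mul_le_mul_of_nonneg_left _ (Real.exp_pos _).le
        rw [← inv_div]
        exact inv_anti₀ (by positivity) h3
      calc 4 * q * Real.exp (-(cb * n)) ≤ 4 * (N * x) *
            (Real.exp cb * (M.factorial / (δ * x) ^ M)) := by gcongr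
        _ = E / (x : ℝ) ^ (14 * A) := by
            rw [hE, mul_pow, hM, pow_succ (x : ℝ)]
            field_simp
    calc 1 / (2 : ℝ) ^ q + 4 * q * Real.exp (-(cb * n)) ≤
          2 / (x : ℝ) ^ (14 * A) + E / (x : ℝ) ^ (14 * A) := add_le_add e1 e2
      _ = (2 + E) / (x : ℝ) ^ (14 * A) := by ring
      _ ≤ 2 ^ (14 * A) * (2 + E) / (k : ℝ) ^ A := by
          rw [div_le_div_iff₀ hxA (by positivity)]
          calc (2 + E) * (k : ℝ) ^ A ≤ (2 + E) * (2 ^ (14 * A) * (x : ℝ) ^ (14 * A)) := by gcongr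
            _ = _ := by ring

end Pool.Agent.L5helper45.HW
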